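import Pool.Agent.W751.CV.Stm
import Pool.Agent.W751.CD.Fib

/-!
Small critical values are unlikely if the radius is larger than one.
-/

set_option autoImplicit false

open Polynomial Filter Topology MeasureTheory

namespace Pool.Agent.W45.CV

open Pool.Agent.W751.CD Pool.Agent.W751.CV

lemma ZN_pos {ρ : ℝ} (hρ : 0 < ρ) (N : ℕ) : 0 < ZN ρ N := by
  unfold ZN hk
  have : 0 < Real.pi := Real.pi_pos
  refine mul_pos (by exact_mod_cast Nat.factorial_pos N) (Finset.prod_pos fun k _ => ?_)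
  positivity

lemma markov {α : Type} [MeasurableSpace α] (μ : Measure α) {f : α → ENNReal}
    (hf : AEMeasurable f μ) {t B : ℝ} (ht : 0 < t) (hB : ∫⁻ z, f z ∂μ ≤ ENNReal.ofReal B) :
    μ {z | ENNReal.ofReal t ≤ f z} ≤ ENNReal.ofReal (B / t) := by
  refine (meas_ge_le_lintegral_div hf (by simpa using ht) ENNReal.ofReal_ne_top).trans ?_
  rw [ENNReal.ofReal_div_of_pos ht]
  exact ENNReal.div_le_div_right hB _

lemma cont_eval (N : ℕ) : Continuous fun x : (Fin N → ℂ) × ℂ => ‖(P x.1).eval x.2‖ := by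
  have : (fun x : (Fin N → ℂ) × ℂ => ‖(P x.1).eval x.2‖) =
      fun x => ‖∏ i, (x.2 - x.1 i)‖ := by
    funext x
    rw [eval_P]
  rw [this]
  fun_prop

lemma meas_l2 (ρ : ℝ) (N : ℕ) : Measurable fun z : Fin N → ℂ =>
    ∫⁻ w, ENNReal.ofReal (‖(P z).eval w‖ ^ 2) ∂(mD ρ) := by
  unfold mD
  have h : Measurable fun x : (Fin N → ℂ) × ℂ => ENNReal.ofReal (‖(P x.1).eval x.2‖ ^ 2) :=
    ((cont_eval N).pow 2).measurable.ennreal_ofReal
  exact h.lintegral_prod_right'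

lemma meas_area (ρ R : ℝ) (N : ℕ) : Measurable fun z : Fin N → ℂ =>
    volume {w : ℂ | ‖w‖ ≤ ρ ∧ ‖(P z).eval w‖ ≤ R} := by
  have h : MeasurableSet {x : (Fin N → ℂ) × ℂ | ‖x.2‖ ≤ ρ ∧ ‖(P x.1).eval x.2‖ ≤ R} := by
    refine IsClosed.measurableSet ?_
    exact (isClosed_le continuous_snd.norm continuous_const).inter
      (isClosed_le (cont_eval N) continuous_const)
  exact measurable_measure_prodMk_left (ν := (volume : Measure ℂ)) h

/-- the numerical constant in the supremum bound -/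
lemma sup_const {ρ : ℝ} (hρ : 1 < ρ) {N : ℕ} (hN : 1 ≤ N) :
    ((N : ℝ) + 1) ^ 2 * ((ρ + 1 / N) / ρ) ^ (2 * N) / (Real.pi * ρ ^ 2) ≤ 9 * ((N : ℝ) + 1) ^ 2 := by
  have hN0 : (0 : ℝ) < N := by exact_mod_cast hN
  have h1 : (ρ + 1 / N) / ρ ≤ Real.exp (1 / N) := by
    have h2 : (ρ + 1 / N) / ρ ≤ 1 + 1 / N := by
      rw [div_le_iff₀ (by linarith)]
      have h3 : (1 : ℝ) / N ≤ 1 / N * ρ := by
        have : (0 : ℝ) < 1 / N := by positivity
        nlinarith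
      nlinarith
    have h3 := Real.add_one_le_exp ((1 : ℝ) / N)
    linarith
  have h0 : 0 ≤ (ρ + 1 / N) / ρ := by positivity
  have h4 : ((ρ + 1 / N) / ρ) ^ (2 * N) ≤ 9 := by
    calc ((ρ + 1 / N) / ρ) ^ (2 * N) ≤ (Real.exp (1 / N)) ^ (2 * N) := pow_le_pow_left₀ h0 h1 _
      _ = (Real.exp 1) ^ 2 := by
          rw [← Real.exp_nat_mul, ← Real.exp_nat_mul]
          congr 1
          push_cast
          field_simp
      _ ≤ 3 ^ 2 := pow_le_pow_left₀ (Real.exp_pos 1).le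
          (by have := Real.exp_one_lt_d9; linarith) _
      _ = 9 := by norm_num
  have h5 : 1 ≤ Real.pi * ρ ^ 2 := by
    have h6 := Real.pi_gt_three
    nlinarith
  rw [div_le_iff₀ (by linarith)]
  have h7 : 0 ≤ ((N : ℝ) + 1) ^ 2 := by positivity
  calc ((N : ℝ) + 1) ^ 2 * ((ρ + 1 / N) / ρ) ^ (2 * N) ≤ ((N : ℝ) + 1) ^ 2 * 9 := by gcongr
    _ = 9 * ((N : ℝ) + 1) ^ 2 * 1 := by ring
    _ ≤ 9 * ((N : ℝ) + 1) ^ 2 * (Real.pi * ρ ^ 2) := by gcongr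

lemma poly_bdd (k : ℕ) {q : ℝ} (h0 : 0 ≤ q) (h1 : q < 1) :
    ∃ C : ℝ, ∀ N : ℕ, (N : ℝ) ^ k * q ^ N ≤ C := by
  have h := tendsto_pow_const_mul_const_pow_of_abs_lt_one k (r := q) (by rwa [abs_of_nonneg h0])
  obtain ⟨C, hC⟩ := h.bddAbove_range
  exact ⟨C, fun N => hC ⟨N, rfl⟩⟩

theorem ca : S_CA := by
  intro hZ hL2 hSUP hCRIT hSMALL hAREA ρ R hρ hR
  obtain ⟨C0, hC0, hA⟩ := hAREA ρ hρ
  have hρ0 : 0 < ρ := by linarith
  -- the fourth root
  obtain ⟨τ, hτ1, hτ4⟩ : ∃ τ : ℝ, 1 < τ ∧ τ ^ 4 = ρ := by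
    refine ⟨√√ρ, ?_, ?_⟩
    · rw [Real.lt_sqrt (by norm_num), one_pow, Real.lt_sqrt (by norm_num), one_pow]
      exact hρ
    · have h1 : √√ρ ^ 2 = √ρ := Real.sq_sqrt (Real.sqrt_nonneg _)
      have h2 : √ρ ^ 2 = ρ := Real.sq_sqrt hρ0.le
      calc √√ρ ^ 4 = (√√ρ ^ 2) ^ 2 := by ring
        _ = ρ := by rw [h1, h2]
  have hτ0 : 0 < τ := by linarith
  have hq0 : 0 < τ⁻¹ := inv_pos.2 hτ0
  have hq1 : τ⁻¹ < 1 := inv_lt_one_of_one_lt₀ hτ1
  obtain ⟨D4, hD4⟩ := poly_bdd 4 hq0.le hq1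
  obtain ⟨D5, hD5⟩ := poly_bdd 5 hq0.le hq1
  set D : ℝ := D5 + D4 with hD
  have hDD : ∀ N : ℕ, (N : ℝ) ^ 4 * ((N : ℝ) + 1) * τ⁻¹ ^ N ≤ D := by
    intro N
    have h1 := hD4 N
    have h2 := hD5 N
    calc (N : ℝ) ^ 4 * ((N : ℝ) + 1) * τ⁻¹ ^ N = (N : ℝ) ^ 5 * τ⁻¹ ^ N + (N : ℝ) ^ 4 * τ⁻¹ ^ N := by
          ring
      _ ≤ D := by rw [hD]; linarith
  have hD0 : 0 ≤ D := by
    have := hDD 0
    simpa using this
  set N1 : ℕ := ⌈R⌉₊ with hN1
  have hpi := Real.pi_pos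
  refine ⟨Real.pi * ρ ^ 2 + 24 * C0 * R * D + τ ^ N1, τ⁻¹, by positivity, hq0, hq1, ?_⟩
  intro N hN
  have hZp := ZN_pos hρ0 N
  have hqN : 0 < τ⁻¹ ^ N := pow_pos hq0 N
  have hNR : (2 : ℝ) ≤ N := by exact_mod_cast hN
  rcases lt_or_ge N N1 with hlt | hge
  · -- small N
    refine (measure_mono (Set.subset_univ _)).trans ?_
    rw [(hZ ρ N hρ0).1]
    refine ENNReal.ofReal_le_ofReal ?_
    have h1 : 1 ≤ τ ^ N1 * τ⁻¹ ^ N := by
      rw [inv_pow, ← div_eq_mul_inv, le_div_iff₀ (by positivity), one_mul]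
      exact pow_le_pow_right₀ hτ1.le hlt.le
    have h2 : 0 ≤ (Real.pi * ρ ^ 2 + 24 * C0 * R * D) * τ⁻¹ ^ N := by positivity
    calc ZN ρ N = 1 * ZN ρ N := (one_mul _).symm
      _ ≤ ((Real.pi * ρ ^ 2 + 24 * C0 * R * D) * τ⁻¹ ^ N + τ ^ N1 * τ⁻¹ ^ N) * ZN ρ N := by
          gcongr
          linarith
      _ = _ := by ring
  · -- large N
    have hRN : R ≤ N := (Nat.le_ceil R).trans (by exact_mod_cast hge)
    set s : ℝ := 3 * ((N : ℝ) + 1) * τ ^ (6 * N) with hs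
    have hs0 : 0 < s := by positivity
    have hs2 : s ^ 2 = 9 * ((N : ℝ) + 1) ^ 2 * ρ ^ (3 * N) := by
      rw [hs, ← hτ4]
      ring
    have hRs : R ≤ 2 * s := by
      have h1 : 1 ≤ τ ^ (6 * N) := one_le_pow₀ hτ1.le
      have h2 : 3 * ((N : ℝ) + 1) ≤ s := by
        rw [hs]
        exact le_mul_of_one_le_right (by positivity) h1
      linarith
    set t : ℝ := Real.pi * R / (2 * s * N ^ 2) with ht
    have ht0 : 0 < t := by positivity
    set X : Set (Fin N → ℂ) := {z | ENNReal.ofReal (ρ ^ (3 * N)) ≤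
      ∫⁻ w, ENNReal.ofReal (‖(P z).eval w‖ ^ 2) ∂(mD ρ)} with hX
    set Y : Set (Fin N → ℂ) := {z | ENNReal.ofReal t ≤
      volume {w : ℂ | ‖w‖ ≤ ρ + 1 ∧ ‖(P z).eval w‖ ≤ 2 * R}} with hY
    have hsub : {z : Fin N → ℂ | (∀ i, ‖z i‖ ≤ ρ) ∧ ∃ c : ℂ, (derivative (P z)).eval c = 0 ∧
        ‖(P z).eval c‖ ≤ R} ⊆ X ∪ Y := by
      rintro z ⟨hz, c, hc, hcR⟩
      by_cases hzX : z ∈ X
      · exact Or.inl hzX
      · right
        rw [hX, Set.mem_ofPred_eq, not_le] at hzX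
        have hcρ : ‖c‖ ≤ ρ := by
          have := hCRIT N 0 ρ z c (by omega) (by simpa using hz) hc
          simpa using this
        refine hSMALL ρ s R N z c hρ0 hN (by linarith) hRs hcρ (fun w hw => ?_) hc hcR
        have h1 := hSUP ρ (ρ + 1 / N) N (P z) hρ0 (by
          have : (0 : ℝ) ≤ 1 / N := by positivity
          linarith) (by rw [P_natDegree]) w hw
        have h2 : ENNReal.ofReal (‖(P z).eval w‖ ^ 2) ≤ ENNReal.ofReal (s ^ 2) := by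
          refine h1.trans ?_
          calc ENNReal.ofReal (((N : ℝ) + 1) ^ 2 * ((ρ + 1 / N) / ρ) ^ (2 * N) / (Real.pi * ρ ^ 2)) *
              ∫⁻ x, ENNReal.ofReal (‖(P z).eval x‖ ^ 2) ∂(mD ρ)
              ≤ ENNReal.ofReal (9 * ((N : ℝ) + 1) ^ 2) * ENNReal.ofReal (ρ ^ (3 * N)) :=
                mul_le_mul' (ENNReal.ofReal_le_ofReal (sup_const hρ (by omega))) hzX.le
            _ = ENNReal.ofReal (s ^ 2) := by
                rw [← ENNReal.ofReal_mul (by positivity), hs2]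
        rw [ENNReal.ofReal_le_ofReal_iff (by positivity)] at h2
        exact (pow_le_pow_iff_left₀ (norm_nonneg _) hs0.le (by norm_num)).1 h2
    have hmX : mu ρ N X ≤ ENNReal.ofReal (Real.pi * ρ ^ 2 * τ⁻¹ ^ N * ZN ρ N) := by
      refine (markov (mu ρ N) (meas_l2 ρ N).aemeasurable (by positivity) (hL2 ρ N hρ0).le).trans ?_
      refine ENNReal.ofReal_le_ofReal ?_
      have h1 : Real.pi * ρ ^ (2 * N + 2) * ZN ρ N / ρ ^ (3 * N) =
          Real.pi * ρ ^ 2 * (ρ⁻¹) ^ N * ZN ρ N := by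
        rw [inv_pow]
        field_simp
        ring
      rw [h1]
      have h2 : ρ⁻¹ ≤ τ⁻¹ := by
        rw [← hτ4]
        exact inv_anti₀ hτ0 (le_self_pow₀ hτ1.le (by norm_num))
      gcongr
    have hmY : mu ρ N Y ≤ ENNReal.ofReal (24 * C0 * R * D * τ⁻¹ ^ N * ZN ρ N) := by
      refine (markov (mu ρ N) (meas_area (ρ + 1) (2 * R) N).aemeasurable ht0
        (hA N hN (2 * R) (by linarith))).trans ?_
      refine ENNReal.ofReal_le_ofReal ?_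
      have h1 : C0 * (2 * R) ^ 2 * N ^ 2 / ρ ^ (2 * N) * ZN ρ N / t =
          (24 * C0 * R / Real.pi) * ((N : ℝ) ^ 4 * ((N : ℝ) + 1) * τ⁻¹ ^ N) * τ⁻¹ ^ N * ZN ρ N := by
        rw [ht, hs, ← hτ4, inv_pow]
        field_simp
        ring
      rw [h1]
      have h2 := hDD N
      have h3 : 24 * C0 * R / Real.pi ≤ 24 * C0 * R :=
        div_le_self (by positivity) (by linarith [Real.pi_gt_three])
      have h4 : (24 * C0 * R / Real.pi) * ((N : ℝ) ^ 4 * ((N : ℝ) + 1) * τ⁻¹ ^ N) ≤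
          24 * C0 * R * D := mul_le_mul h3 h2 (by positivity) (by positivity)
      gcongr
    refine (measure_mono hsub).trans ((measure_union_le _ _).trans ?_)
    refine (add_le_add hmX hmY).trans ?_
    rw [← ENNReal.ofReal_add (by positivity) (by positivity)]
    refine ENNReal.ofReal_le_ofReal ?_
    have h5 : 0 ≤ τ ^ N1 * τ⁻¹ ^ N * ZN ρ N := by positivity
    calc _ ≤ Real.pi * ρ ^ 2 * τ⁻¹ ^ N * ZN ρ N + 24 * C0 * R * D * τ⁻¹ ^ N * ZN ρ N +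
          τ ^ N1 * τ⁻¹ ^ N * ZN ρ N := by linarith
      _ = _ := by ring

end Pool.Agent.W45.CV
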